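import Pool.Agent.UMG.CStmts

/-!
# Row OUC of squad UMG (MP_34c13a_lc), block C: the output as a sum over the edges
-/

set_option autoImplicit false

namespace Pool.Agent.UMG.C.H92

open Finset Pool.Agent.UMG Pool.Agent.UMG.C

/-- the entries as a function of natural numbers -/
def gN (E : List (ℕ × ℕ)) (v w : ℕ) : ℕ :=
  if v = w then E.count (v, w) else E.count (v, w) + E.count (w, v)

theorem gN_cons (e : ℕ × ℕ) (E : List (ℕ × ℕ)) (v w : ℕ) :
    gN (e :: E) v w = gN E v w + ((if v = e.1 ∧ w = e.2 then 1 else 0) +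
      (if v = e.2 ∧ w = e.1 ∧ e.1 ≠ e.2 then 1 else 0)) := by
  obtain ⟨a, b⟩ := e
  unfold gN
  by_cases h : v = w
  · subst h
    rw [if_pos rfl, if_pos rfl, List.count_cons]
    have h1 : ¬ (v = b ∧ v = a ∧ a ≠ b) := by
      rintro ⟨rfl, rfl, h2⟩
      exact h2 rfl
    rw [if_neg h1]
    by_cases h3 : v = a ∧ v = b
    · obtain ⟨rfl, rfl⟩ := h3
      simp
    · rw [if_neg h3]
      have h4 : ¬ ((a, b) = (v, v)) := by
        intro h5
        rw [Prod.mk.injEq] at h5
        exact h3 ⟨h5.1.symm, h5.2.symm⟩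
      simp [h4]
  · rw [if_neg h, if_neg h, List.count_cons, List.count_cons]
    have e1 : (((a, b) == (v, w)) = true) ↔ (v = a ∧ w = b) := by
      rw [beq_iff_eq, Prod.mk.injEq]
      constructor
      · rintro ⟨h1, h2⟩
        exact ⟨h1.symm, h2.symm⟩
      · rintro ⟨h1, h2⟩
        exact ⟨h1.symm, h2.symm⟩
    have e2 : (((a, b) == (w, v)) = true) ↔ (v = b ∧ w = a ∧ a ≠ b) := by
      rw [beq_iff_eq, Prod.mk.injEq]
      constructor
      · rintro ⟨h1, h2⟩
        exact ⟨h2.symm, h1.symm, fun h3 => h (by rw [← h2, ← h1, h3])⟩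
      · rintro ⟨h1, h2, _⟩
        exact ⟨h2.symm, h1.symm⟩
    simp only [e1, e2]
    omega

theorem sum_one (n a b : ℕ) (P : ℕ → ℕ → ℕ) (Q : Prop) [Decidable Q] :
    ∑ v ∈ range n, ∑ w ∈ range n, (if v = a ∧ w = b ∧ Q then 1 else 0) * P v w =
      if a < n ∧ b < n ∧ Q then P a b else 0 := by
  by_cases h : a < n ∧ b < n ∧ Q
  · rw [if_pos h]
    rw [Finset.sum_eq_single a]
    · rw [Finset.sum_eq_single b]
      · rw [if_pos ⟨rfl, rfl, h.2.2⟩, one_mul]
      · intro w _ hw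
        rw [if_neg (fun h1 => hw h1.2.1), zero_mul]
      · intro h1
        exact absurd (mem_range.2 h.2.1) h1
    · intro v _ hv
      apply Finset.sum_eq_zero
      intro w _
      rw [if_neg (fun h1 => hv h1.1), zero_mul]
    · intro h1
      exact absurd (mem_range.2 h.1) h1
  · rw [if_neg h]
    apply Finset.sum_eq_zero
    intro v hv
    apply Finset.sum_eq_zero
    intro w hw
    rw [if_neg, zero_mul]
    rintro ⟨rfl, rfl, hQ⟩
    exact h ⟨mem_range.1 hv, mem_range.1 hw, hQ⟩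

theorem main_sum (n M : ℕ) (E : List (ℕ × ℕ)) :
    ∑ v ∈ range n, ∑ w ∈ range n, gN E v w * (M + 1) ^ (v * n + w) = (E.map (ctr n M)).sum := by
  induction E with
  | nil => simp [gN]
  | cons e E ih =>
    rw [List.map_cons, List.sum_cons, ← ih]
    have h1 : ∀ v ∈ range n, ∑ w ∈ range n, gN (e :: E) v w * (M + 1) ^ (v * n + w) =
        ∑ w ∈ range n, gN E v w * (M + 1) ^ (v * n + w) +
        (∑ w ∈ range n, (if v = e.1 ∧ w = e.2 ∧ True then 1 else 0) * (M + 1) ^ (v * n + w) +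
          ∑ w ∈ range n, (if v = e.2 ∧ w = e.1 ∧ e.1 ≠ e.2 then 1 else 0) *
            (M + 1) ^ (v * n + w)) := by
      intro v _
      rw [← Finset.sum_add_distrib, ← Finset.sum_add_distrib]
      apply Finset.sum_congr rfl
      intro w _
      rw [gN_cons]
      simp only [and_true]
      ring
    rw [Finset.sum_congr rfl h1, Finset.sum_add_distrib, Finset.sum_add_distrib,
      sum_one n e.1 e.2 (fun v w => (M + 1) ^ (v * n + w)) True,
      sum_one n e.2 e.1 (fun v w => (M + 1) ^ (v * n + w)) (e.1 ≠ e.2)]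
    rw [add_comm]
    congr 1
    unfold ctr
    by_cases h2 : e.1 < n ∧ e.2 < n
    · rw [if_pos ⟨h2.1, h2.2, trivial⟩, if_pos h2]
      by_cases h3 : e.1 = e.2
      · rw [if_pos h3, if_neg (fun h4 => h4.2.2 h3), add_zero]
      · rw [if_neg h3, if_pos ⟨h2.2, h2.1, h3⟩]
    · rw [if_neg h2, if_neg (fun h4 => h2 ⟨h4.1, h4.2.1⟩), if_neg (fun h4 => h2 ⟨h4.2.1, h4.1⟩)]

theorem ouc : OucStmt := by
  intro n M E
  unfold out
  rw [← main_sum n M E]
  congr 1
  rw [← Fin.sum_univ_eq_sum_range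
    (fun v => ∑ w ∈ range n, gN E v w * (M + 1) ^ (v * n + w)) n]
  apply Finset.sum_congr rfl
  intro v _
  rw [← Fin.sum_univ_eq_sum_range (fun w => gN E v w * (M + 1) ^ ((v : ℕ) * n + w)) n]
  apply Finset.sum_congr rfl
  intro w _
  congr 1
  unfold gr gN
  by_cases h : v = w
  · rw [if_pos h, if_pos (by rw [h])]
  · rw [if_neg h, if_neg (fun h1 => h (Fin.ext h1))]

end Pool.Agent.UMG.C.H92
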